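import Pool.Agent.Q28.HJ.Small

/-!
# Galois representations on the cohomology of motives: definitions
-/

open CategoryTheory MonoidalCategory TensorProduct Representation

universe v u w

namespace Pool.Agent.Q65.SS

open Pool.Agent.Q28.HJ

/-- The theorem of Chevalley: in characteristic zero the tensor product of two finite-dimensional
semisimple representations of a group is semisimple. -/
def Chevalley (K : Type) [Field K] : Prop :=
  ∀ (G V W : Type) [Group G] [AddCommGroup V] [Module K V] [AddCommGroup W] [Module K W]
    [FiniteDimensional K V] [FiniteDimensional K W] (ρ : Representation K G V)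
    (σ : Representation K G W), ρ.IsSemisimpleRepresentation → σ.IsSemisimpleRepresentation →
      (ρ.tprod σ).IsSemisimpleRepresentation

section

variable {Γ K : Type} [Group Γ] [Field K] {V W : Type} [AddCommGroup V] [Module K V]
  [AddCommGroup W] [Module K W] {A B : Subgroup Γ}

/-- The linear map `f` is equivariant for a subgroup of finite index. -/
def Equivariant (ρ : Representation K A V) (σ : Representation K B W) (f : V →ₗ[K] W) : Prop :=
  ∃ N : Subgroup Γ, N.FiniteIndex ∧ ∃ (h : N ≤ A) (h' : N ≤ B), ∀ (g : N) (x : V),
    f (ρ ⟨g, h g.2⟩ x) = σ ⟨g, h' g.2⟩ (f x)

/-- The tensor product of representations of `A` and of `B`, a representation of `A ∩ B`. -/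
noncomputable def tens (ρ : Representation K A V) (σ : Representation K B W) :
    Representation K (A ⊓ B : Subgroup Γ) (V ⊗[K] W) :=
  Representation.tprod (ρ.comp (Subgroup.inclusion inf_le_left))
    (σ.comp (Subgroup.inclusion inf_le_right))

/-- The representations `ρ` of `Γ` and `σ` of `A` agree on a subgroup of finite index. -/
def Agree (ρ : Representation K Γ V) (σ : Representation K A V) : Prop :=
  ∃ N : Subgroup Γ, N.FiniteIndex ∧ ∃ h : N ≤ A, ∀ g : N, ρ g = σ ⟨g, h g.2⟩

end

/-- Let `k` be a finitely generated field of characteristic zero, `Γ` its absolute Galois group and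
`K` the field of `ℓ`-adic numbers. The data `JoinData` are given for the hypersurfaces over the
algebraic closure `k'` of `k`; `𝓜` is the category of motives over `k'` whose morphisms are the
absolutely Hodge correspondences. -/
structure GaloisData (Γ K : Type) [Group Γ] [Field K] (𝓜 : Type u) [Category.{v} 𝓜]
    extends JoinData.{v, u, w} 𝓜 where
  /-- the `ℓ`-adic cohomology of a motive -/
  V : 𝓜 → Type
  [vgrp : ∀ M, AddCommGroup (V M)]
  [vmod : ∀ M, Module K (V M)]
  /-- the map given by a morphism of motives -/
  map : ∀ {M N : 𝓜}, (M ⟶ N) → (V M →ₗ[K] V N)
  /-- Every motive over `k'` has a model over a finite extension of `k`. We choose one model of `M`;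
  `U M` is the absolute Galois group of its field of definition -/
  U : 𝓜 → Subgroup Γ
  /-- the action of `U M` on the cohomology of `M`, given by the chosen model -/
  rep : ∀ M, Representation K (U M) (V M)
  /-- the motives of abelian varieties -/
  AV : 𝓜 → Prop
  /-- the motives of K3 surfaces and of hyperkaehler varieties of the known deformation types -/
  HK : 𝓜 → Prop

attribute [instance] GaloisData.vgrp GaloisData.vmod

namespace GaloisData

variable {Γ K : Type} [Group Γ] [Field K] {𝓜 : Type u} [Category.{v} 𝓜]
  (T : GaloisData.{v, u, w} Γ K 𝓜)

/-- `ρ` is the action of the Galois group of `k` on the cohomology of `M` which is given by a model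
of `M` over `k`: it agrees with the action given by the chosen model on a subgroup of finite index
(two models become isomorphic over a finite extension). -/
def IsModel (M : 𝓜) (ρ : Representation K Γ (T.V M)) : Prop := Agree ρ (T.rep M)

/-- The `ℓ`-adic cohomology is a functor, and every morphism of motives over `k'` is defined over a
finite extension of `k`, so that it is equivariant for a subgroup of finite index. -/
structure Functorial : Prop where
  map_id : ∀ M x, T.map (𝟙 M) x = x
  map_comp : ∀ {M N P : 𝓜} (f : M ⟶ N) (g : N ⟶ P) (x : T.V M),
    T.map (f ≫ g) x = T.map g (T.map f x)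
  equivariant : ∀ {M N : 𝓜} (f : M ⟶ N), Equivariant (T.rep M) (T.rep N) (T.map f)

/-- The Kuenneth formula: the cohomology of `M ⊗ N` is the tensor product of the cohomologies, with
the tensor product action of a subgroup of finite index. -/
def Kuenneth [MonoidalCategory 𝓜] : Prop :=
  ∀ M N : 𝓜, ∃ e : T.V (M ⊗ N) ≃ₗ[K] T.V M ⊗[K] T.V N,
    Equivariant (T.rep (M ⊗ N)) (tens (T.rep M) (T.rep N)) e

variable [Preadditive 𝓜] [MonoidalCategory 𝓜]

/-- Known facts.
* `core`: the facts on hypersurfaces given by sums of equations (Shioda, Katsura; elementary).
* `finite`, `index`, `functorial`, `additive`, `kuenneth`: the `ℓ`-adic cohomology is an additive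
  tensor functor with values in finite-dimensional representations of open subgroups.
* `unit`, `lefschetz`: the cohomology of the unit motive and of the Lefschetz motive.
* `faltings`: the representations given by abelian varieties are semisimple (Faltings).
* `hyperkaehler`: the motives of K3 surfaces and of hyperkaehler varieties of the known deformation
  types are motives of abelian type (Deligne, Andre, Soldatenkov).
* `blocks`: the same holds for the primitive motives of curves and finite sets, of smooth cubic
  hypersurfaces of dimension at most five and of smooth quartic hypersurfaces of dimension at most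
  three (Deligne and Andre for K3 surfaces and cubic fourfolds, by the Kuga-Satake construction; for
  cubic and quartic threefolds and cubic fivefolds the motive is that of the intermediate Jacobian;
  cubic surfaces are rational). -/
structure Facts : Prop where
  core : T.CoreFacts
  finite : ∀ M, FiniteDimensional K (T.V M)
  index : ∀ M, (T.U M).FiniteIndex
  functorial : T.Functorial
  additive : ∀ {M N : 𝓜} (f g : M ⟶ N) (x : T.V M), T.map (f + g) x = T.map f x + T.map g x
  kuenneth : T.Kuenneth
  unit : Module.finrank K (T.V (𝟙_ 𝓜)) = 1
  lefschetz : Module.finrank K (T.V T.L) = 1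
  faltings : ∀ M, T.AV M → (T.rep M).IsSemisimpleRepresentation
  hyperkaehler : ∀ M, T.HK M → GenBy T.L T.AV M
  blocks : T.SmallFacts T.AV

end GaloisData

end Pool.Agent.Q65.SS
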