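import Pool.Agent.Q65.SS.Gen

/-!
# Families over domains of finite type over the integers: one fibre over a number field
-/

set_option autoImplicit false

open CategoryTheory MonoidalCategory NumberField IsDedekindDomain Filter Topology

universe v u w

namespace Pool.Agent.Q65.SS

open Pool.Agent.Q28.HJ Pool.Agent.W528.Ord Pool.Agent.W401.Cheb

variable {K : Type} [Field K] [NumberField K] {𝓜 : Type u} [Category.{v} 𝓜]

/-- A smooth projective morphism `Y → Spec A`, where `A` is a domain of finite type over `ℤ`, with a
point of `Spec A` in the number field `K`. -/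
structure Family (T : OrdData.{v, u, w} K 𝓜) (A : Type) [CommRing A] where
  /-- the closed points `s` of `Spec A` such that the fibre `Y_s` is ordinary in the sense of Bloch
  and Kato -/
  ord : Set (MaximalSpectrum A)
  /-- the given point of `Spec A` with values in `K` -/
  φ : A →+* K
  /-- the fibre of `Y` over `φ`, a smooth projective variety over `K` -/
  fibre : T.Var

/-- Known facts.
* `open_locus`: for every prime number `p` the set of the ordinary points is open in
  `Spec (A / p A)` (Illusie).
* `reduction`: for almost all finite places `v` of `K` the homomorphism `φ` has values in the valuation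
  ring `O_v`, the elements `a` with `v (φ a) < 1` form a maximal ideal `s` of `A`, the pullback of `Y`
  to `O_v` is a smooth projective model of the fibre over `φ`, and its special fibre, obtained from
  `Y_s` by an extension of finite fields, is ordinary if the fibre over `φ` has good ordinary
  reduction at `v`. -/
structure Family.Facts {T : OrdData.{v, u, w} K 𝓜} {A : Type} [CommRing A] (Y : Family T A) :
    Prop where
  open_locus : ∀ p : ℕ, p.Prime → ∀ s ∈ Y.ord, (p : A) ∈ s.asIdeal → ∃ g : A, g ∉ s.asIdeal ∧
    ∀ s' : MaximalSpectrum A, (p : A) ∈ s'.asIdeal → g ∉ s'.asIdeal → s' ∈ Y.ord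
  reduction : {v : HeightOneSpectrum (𝓞 K) | v ∈ T.good Y.fibre ∧
    ¬ ∃ s ∈ Y.ord, ∀ a : A, a ∈ s.asIdeal ↔ v.valuation K (Y.φ a) < 1}.Finite

/-- Infinitely many places of good ordinary reduction of one fibre yield density. -/
theorem Family.dense {T : OrdData.{v, u, w} K 𝓜} {A : Type} [CommRing A] [IsDomain A]
    [Algebra.FiniteType ℤ A] {Y : Family T A} (hY : Y.Facts) (h : (T.good Y.fibre).Infinite) :
    Dense (MaximalSpectrum.toPrimeSpectrum '' Y.ord) := by
  haveI : CharZero A := by
    haveI : CharZero K := inferInstance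
    refine ⟨fun m n hmn => ?_⟩
    have := congrArg Y.φ hmn
    rw [map_natCast, map_natCast] at this
    exact_mod_cast this
  haveI : IsNoetherianRing A := Algebra.FiniteType.isNoetherianRing ℤ A
  apply dense_of
  intro c hc
  obtain ⟨N, hN0, hN⟩ := exists_bound c hc
  obtain ⟨v, hv, hvE, p, hp, hpN, hpv⟩ := exists_place _ h _ hY.reduction N hN0
  have hs : ∃ s ∈ Y.ord, ∀ a : A, a ∈ s.asIdeal ↔ v.valuation K (Y.φ a) < 1 := by
    by_contra hcon
    exact hvE ⟨hv, hcon⟩
  obtain ⟨s, hs, hsv⟩ := hs
  have hps : (p : A) ∈ s.asIdeal := by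
    rw [hsv, map_natCast]
    have := (HeightOneSpectrum.valuation_lt_one_iff_mem (K := K) v ((p : ℕ) : 𝓞 K)).2 hpv
    simpa using this
  obtain ⟨g, hg, hg'⟩ := hY.open_locus p hp s hs hps
  obtain ⟨s', h1, h2, h3⟩ := exists_max (hN p hp hpN) s hps g hg
  exact ⟨s', hg' s' h1 h2, h3⟩

theorem Family.final [Preadditive 𝓜] [MonoidalCategory 𝓜] {T : OrdData.{v, u, w} K 𝓜} (hT : T.Facts)
    {A : Type} [CommRing A] [IsDomain A] [Algebra.FiniteType ℤ A] {Y : Family T A} (hY : Y.Facts)
    (hX : GenBy T.L (fun N => T.Base N ∨ ∃ W, BallSum T.toJoinData W ∧ N = T.prim W)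
      (T.mot Y.fibre)) : Dense (MaximalSpectrum.toPrimeSpectrum '' Y.ord) :=
  Family.dense hY (infinite_of_pos _ (OrdData.final hT Y.fibre hX).2)

end Pool.Agent.Q65.SS
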