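import Pool.Agent.Q65.SS.OMain
import Mathlib.RingTheory.Jacobson.Ring
import Mathlib.RingTheory.Spectrum.Maximal.Basic
import Mathlib.RingTheory.Spectrum.Prime.Topology

/-!
# Density of closed points in domains of finite type over the integers
-/

set_option autoImplicit false

open NumberField IsDedekindDomain Filter Topology

namespace Pool.Agent.Q65.SS

section

theorem jacobson_int : IsJacobsonRing ℤ := by
  rw [isJacobsonRing_iff_sInf_maximal']
  intro P hP
  by_cases h : P = ⊥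
  · refine ⟨{J | J.IsMaximal}, fun J hJ _ h => hJ.1.2 _ h, ?_⟩
    rw [h, eq_comm, eq_bot_iff]
    intro x hx
    rw [Ideal.mem_sInf] at hx
    obtain ⟨q, hq1, hq⟩ := Nat.exists_infinite_primes (x.natAbs + 1)
    have hmax : (Ideal.span {(q : ℤ)}).IsMaximal := by
      have h1 : (Ideal.span {(q : ℤ)}).IsPrime := by
        rw [Ideal.span_singleton_prime (by exact_mod_cast hq.ne_zero)]
        exact Nat.prime_iff_prime_int.1 hq
      refine h1.isMaximal ?_
      intro hb
      rw [Ideal.span_singleton_eq_bot] at hb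
      exact hq.ne_zero (by exact_mod_cast hb)
    have h2 := hx hmax
    rw [Ideal.mem_span_singleton] at h2
    have h3 : q ∣ x.natAbs := Int.natCast_dvd.1 h2
    by_contra hx0
    have h4 : x.natAbs ≠ 0 := fun h0 => hx0 (by simpa using Int.natAbs_eq_zero.1 h0)
    have := Nat.le_of_dvd (Nat.pos_of_ne_zero h4) h3
    omega
  · exact ⟨{P}, fun J hJ K hK => by
      rw [Set.mem_singleton_iff] at hJ
      subst hJ
      exact (hP.isMaximal h).1.2 _ hK, by simp⟩

variable {A : Type} [CommRing A] [IsDomain A] [CharZero A]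

theorem exists_bound [IsNoetherianRing A] (c : A) (hc : c ≠ 0) :
    ∃ N : ℕ, N ≠ 0 ∧ ∀ p : ℕ, p.Prime → ¬ p ∣ N → ∀ x : A, c * x ∈ Ideal.span {(p : A)} →
      x ∈ Ideal.span {(p : A)} := by
  let I : ℕ →o Ideal A := ⟨fun n => Submodule.comap (LinearMap.mulLeft A ((n.factorial : ℕ) : A))
    (Ideal.span {c}), by
      intro m n hmn y hy
      rw [Submodule.mem_comap, LinearMap.mulLeft_apply] at hy ⊢
      obtain ⟨k, hk⟩ := Nat.factorial_dvd_factorial hmn
      rw [hk, Nat.cast_mul, mul_comm (m.factorial : A), mul_assoc]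
      exact Ideal.mul_mem_left _ _ hy⟩
  have hI : ∀ n y, y ∈ I n ↔ ((n.factorial : ℕ) : A) * y ∈ Ideal.span {c} := fun n y => by
    change y ∈ Submodule.comap _ _ ↔ _
    rw [Submodule.mem_comap, LinearMap.mulLeft_apply]
  obtain ⟨n, hn⟩ := monotone_stabilizes_iff_noetherian.2 (inferInstance : IsNoetherian A A) I
  refine ⟨n.factorial, Nat.factorial_ne_zero n, ?_⟩
  intro p hp hpn x hx
  have hlt : n < p := by
    by_contra hle
    exact hpn ((Nat.Prime.dvd_factorial hp).2 (by omega))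
  obtain ⟨y, hy⟩ := Ideal.mem_span_singleton.1 hx
  have h1 : y ∈ I p := by
    rw [hI, ← Nat.mul_factorial_pred hp.ne_zero, Nat.cast_mul, mul_comm (p : A), mul_assoc, ← hy]
    exact Ideal.mul_mem_left _ _ (Ideal.mul_mem_right _ _ (Ideal.mem_span_singleton_self c))
  have h2 : y ∈ I n := by rw [hn p hlt.le]; exact h1
  rw [hI] at h2
  have hcop : Nat.Coprime p n.factorial := (Nat.Prime.coprime_iff_not_dvd hp).2 hpn
  have hb := Int.gcd_eq_gcd_ab (p : ℤ) (n.factorial : ℤ)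
  have hg : (Int.gcd (p : ℤ) (n.factorial : ℤ) : ℤ) = 1 := by
    rw [Int.gcd_natCast_natCast]; exact_mod_cast hcop
  rw [hg] at hb
  have hb' : (1 : A) = (p : A) * (Int.gcdA (p : ℤ) (n.factorial : ℤ) : A) +
      (n.factorial : A) * (Int.gcdB (p : ℤ) (n.factorial : ℤ) : A) := by
    have := congrArg (Int.cast : ℤ → A) hb
    push_cast at this
    exact this
  have h3 : y ∈ Ideal.span {c} := by
    have e : y = (Int.gcdA (p : ℤ) (n.factorial : ℤ) : A) * (p * y) +
        (Int.gcdB (p : ℤ) (n.factorial : ℤ) : A) * ((n.factorial : A) * y) := by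
      calc y = 1 * y := (one_mul y).symm
        _ = _ := by rw [hb']; ring
    rw [e, ← hy]
    exact Ideal.add_mem _ (Ideal.mul_mem_left _ _ (Ideal.mul_mem_right _ _
      (Ideal.mem_span_singleton_self c))) (Ideal.mul_mem_left _ _ h2)
  obtain ⟨z, hz⟩ := Ideal.mem_span_singleton.1 h3
  rw [Ideal.mem_span_singleton]
  refine ⟨z, mul_left_cancel₀ hc ?_⟩
  rw [hy, hz]
  ring

omit [IsDomain A] [CharZero A] in
theorem exists_max [Algebra.FiniteType ℤ A] {c : A} {p : ℕ}
    (hc : ∀ x, c * x ∈ Ideal.span {(p : A)} → x ∈ Ideal.span {(p : A)}) (s : MaximalSpectrum A)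
    (hs : (p : A) ∈ s.asIdeal) (g : A) (hg : g ∉ s.asIdeal) :
    ∃ s' : MaximalSpectrum A, (p : A) ∈ s'.asIdeal ∧ g ∉ s'.asIdeal ∧ c ∉ s'.asIdeal := by
  haveI := jacobson_int
  haveI : IsJacobsonRing A := isJacobsonRing_of_finiteType (A := ℤ)
  by_contra hcon
  push Not at hcon
  have h1 : c * g ∈ (Ideal.span {(p : A)}).jacobson := by
    rw [Ideal.jacobson, Ideal.mem_sInf]
    rintro J ⟨hJ1, hJ2⟩
    by_cases hgJ : g ∈ J
    · exact Ideal.mul_mem_left _ _ hgJ
    · exact Ideal.mul_mem_right _ _ (hcon ⟨J, hJ2⟩ (hJ1 (Ideal.mem_span_singleton_self _)) hgJ)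
  rw [← Ideal.radical_eq_jacobson] at h1
  obtain ⟨n, hn⟩ := h1
  rw [mul_pow] at hn
  have h2 : ∀ m, c ^ m * g ^ n ∈ Ideal.span {(p : A)} → g ^ n ∈ Ideal.span {(p : A)} := by
    intro m
    induction m with
    | zero => intro h; simpa using h
    | succ m ih =>
      intro h
      refine ih (hc _ ?_)
      rwa [← mul_assoc, ← pow_succ']
  have h3 : g ^ n ∈ s.asIdeal := (Ideal.span_singleton_le_iff_mem _).2 hs (h2 n hn)
  exact hg (s.isMaximal.isPrime.mem_of_pow_mem n h3)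

/-- A set of closed points is dense if it meets all nonempty basic open sets. -/
theorem dense_of (S : Set (MaximalSpectrum A)) (h : ∀ c : A, c ≠ 0 → ∃ s ∈ S, c ∉ s.asIdeal) :
    Dense (MaximalSpectrum.toPrimeSpectrum '' S) := by
  rw [PrimeSpectrum.isTopologicalBasis_basic_opens.dense_iff]
  rintro _ ⟨c, rfl⟩ ⟨x, hx⟩
  have hc : c ≠ 0 := by
    rintro rfl
    exact hx (zero_mem _)
  obtain ⟨s, hs, hcs⟩ := h c hc
  exact ⟨s.toPrimeSpectrum, hcs, s, hs, rfl⟩

end

section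

open Pool.Agent.W528.Ord Pool.Agent.W401.Cheb Pool.Agent.TH30.Ord

variable {K : Type} [Field K] [NumberField K]

theorem infinite_of_pos (G : Set (HeightOneSpectrum (𝓞 K))) (h : 0 < lowerDensity (· ∈ G)) :
    G.Infinite := by
  intro hfin
  have h1 : Tendsto (dens (· ∈ G)) atTop (𝓝 0) := dens_finite (· ∈ G) hfin
  have h2 := (ratio_tendsto _ 0 h1).liminf_eq
  unfold lowerDensity at h
  rw [h2] at h
  exact lt_irrefl _ h

/-- infinitely many places, outside the finite sets -/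
theorem exists_place (G : Set (HeightOneSpectrum (𝓞 K))) (hG : G.Infinite)
    (E : Set (HeightOneSpectrum (𝓞 K))) (hE : E.Finite) (N : ℕ) (hN : N ≠ 0) :
    ∃ v ∈ G, v ∉ E ∧ ∃ p : ℕ, p.Prime ∧ ¬ p ∣ N ∧ ((p : ℕ) : 𝓞 K) ∈ v.asIdeal := by
  have hN' : Ideal.span {((N : ℕ) : 𝓞 K)} ≠ 0 := by
    rw [Ne, Ideal.zero_eq_bot, Ideal.span_singleton_eq_bot]
    exact_mod_cast hN
  have hfin := (hE.union (Ideal.finite_factors hN'))
  obtain ⟨v, hv, hvE⟩ := (hG.diff hfin).nonempty
  rw [Set.mem_union, not_or] at hvE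
  refine ⟨v, hv, hvE.1, ?_⟩
  have hNv : ((N : ℕ) : 𝓞 K) ∉ v.asIdeal := fun h =>
    hvE.2 (Ideal.dvd_iff_le.2 ((Ideal.span_singleton_le_iff_mem _).2 h))
  have h0 : Ideal.absNorm v.asIdeal ≠ 0 := by
    rw [Ne, Ideal.absNorm_eq_zero_iff]
    exact v.ne_bot
  have key : ∀ m : ℕ, m ≠ 0 → ((m : ℕ) : 𝓞 K) ∈ v.asIdeal → ∃ p : ℕ, p.Prime ∧
      ((p : ℕ) : 𝓞 K) ∈ v.asIdeal := by
    intro m
    induction m using Nat.recOnMul with
    | zero => intro h; exact absurd rfl h
    | one => intro _ h; exact absurd ((Ideal.eq_top_iff_one _).2 (by simpa using h)) v.isPrime.ne_top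
    | prime p hp => intro _ h; exact ⟨p, hp, h⟩
    | mul a b iha ihb =>
      intro h0 h
      rw [Nat.cast_mul] at h
      rcases v.isPrime.mem_or_mem h with h | h
      · exact iha (fun h1 => h0 (by rw [h1, zero_mul])) h
      · exact ihb (fun h1 => h0 (by rw [h1, mul_zero])) h
  obtain ⟨p, hp, hpv⟩ := key _ h0 (Ideal.absNorm_mem _)
  refine ⟨p, hp, fun hdvd => hNv ?_, hpv⟩
  obtain ⟨k, hk⟩ := hdvd
  rw [hk, Nat.cast_mul]
  exact Ideal.mul_mem_right _ _ hpv

end

end Pool.Agent.Q65.SS
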