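import Pool.Agent.Q227.CD.Masch

/-!
# Semisimple representations: quotients of sums, twists, subgroups of finite index
-/

set_option autoImplicit false

namespace Pool.Agent.Q65.SS

open Representation Module

variable {k : Type} [Field k] {G : Type} [Group G]

/-- a quotient of the sum of two semisimple representations is semisimple -/
theorem semi_of_split {V A A' : Type} [AddCommGroup V] [Module k V] [AddCommGroup A] [Module k A]
    [AddCommGroup A'] [Module k A'] (ρ : Representation k G V) (σ : Representation k G A)
    (σ' : Representation k G A') (hσ : σ.IsSemisimpleRepresentation)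
    (hσ' : σ'.IsSemisimpleRepresentation) (r₁ : A →ₗ[k] V) (r₂ : A' →ₗ[k] V)
    (h₁ : ∀ g a, r₁ (σ g a) = ρ g (r₁ a)) (h₂ : ∀ g a, r₂ (σ' g a) = ρ g (r₂ a))
    (hs : ∀ v, ∃ a a', r₁ a + r₂ a' = v) : ρ.IsSemisimpleRepresentation := by
  rw [isSemisimpleRepresentation_iff_isSemisimpleModule_asModule] at hσ hσ' ⊢
  let F₁ : IntertwiningMap σ ρ := ⟨r₁, fun g => LinearMap.ext fun v => h₁ g v⟩
  let F₂ : IntertwiningMap σ' ρ := ⟨r₂, fun g => LinearMap.ext fun v => h₂ g v⟩
  let f₁ := IntertwiningMap.equivLinearMapAsModule σ ρ F₁
  let f₂ := IntertwiningMap.equivLinearMapAsModule σ' ρ F₂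
  have h := IsSemisimpleModule.sup (IsSemisimpleModule.range f₁) (IsSemisimpleModule.range f₂)
  have ht : LinearMap.range f₁ ⊔ LinearMap.range f₂ = ⊤ := by
    rw [eq_top_iff]
    intro v _
    obtain ⟨a, a', hv⟩ := hs v
    rw [← hv]
    exact Submodule.add_mem_sup ⟨a, rfl⟩ ⟨a', rfl⟩
  rw [ht] at h
  exact IsSemisimpleModule.congr Submodule.topEquiv.symm

/-- transport along an isomorphism which is equivariant up to scalars -/
theorem semi_twist {V W : Type} [AddCommGroup V] [Module k V] [AddCommGroup W] [Module k W]
    (ρ : Representation k G V) (σ : Representation k G W) (e : V ≃ₗ[k] W) (c : G → k)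
    (hc : ∀ g, c g ≠ 0) (h : ∀ g v, e (ρ g v) = c g • σ g (e v))
    (hσ : σ.IsSemisimpleRepresentation) : ρ.IsSemisimpleRepresentation := by
  have h' : ∀ g w, e.symm (σ g w) = (c g)⁻¹ • ρ g (e.symm w) := by
    intro g w
    rw [LinearEquiv.symm_apply_eq, map_smul, h, e.apply_symm_apply, smul_smul,
      inv_mul_cancel₀ (hc g), one_smul]
  let T : Subrepresentation ρ ≃o Subrepresentation σ :=
    { toFun := fun X =>
        { toSubmodule := X.toSubmodule.comap e.symm.toLinearMap
          apply_mem_toSubmodule := fun g w hw => by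
            change e.symm (σ g w) ∈ X.toSubmodule
            rw [h']
            exact X.toSubmodule.smul_mem _ (X.apply_mem_toSubmodule g hw) }
      invFun := fun Y =>
        { toSubmodule := Y.toSubmodule.comap e.toLinearMap
          apply_mem_toSubmodule := fun g w hw => by
            change e (ρ g w) ∈ Y.toSubmodule
            rw [h]
            exact Y.toSubmodule.smul_mem _ (Y.apply_mem_toSubmodule g hw) }
      left_inv := fun X => by
        apply Subrepresentation.toSubmodule_injective
        ext v
        change e.symm (e v) ∈ X.toSubmodule ↔ _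
        rw [e.symm_apply_apply]
      right_inv := fun X => by
        apply Subrepresentation.toSubmodule_injective
        ext v
        change e (e.symm v) ∈ X.toSubmodule ↔ _
        rw [e.apply_symm_apply]
      map_rel_iff' := by
        intro X Y
        constructor
        · intro hXY v hv
          have : e v ∈ X.toSubmodule.comap e.symm.toLinearMap := by
            change e.symm (e v) ∈ X.toSubmodule
            rw [e.symm_apply_apply]; exact hv
          have h2 : e.symm (e v) ∈ Y.toSubmodule := hXY this
          rw [e.symm_apply_apply] at h2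
          exact h2
        · intro hXY v hv
          exact hXY hv }
  exact (OrderIso.complementedLattice_iff T).2 hσ

/-- one-dimensional representations are semisimple -/
theorem semi_one {V : Type} [AddCommGroup V] [Module k V] (ρ : Representation k G V)
    (h : finrank k V = 1) : ρ.IsSemisimpleRepresentation := by
  haveI : IsSimpleModule k V := isSimpleModule_iff_finrank_eq_one.2 h
  refine ⟨fun X => ?_⟩
  rcases eq_bot_or_eq_top X.toSubmodule with hX | hX
  · have : X = ⊥ := Subrepresentation.toSubmodule_injective hX
    rw [this]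
    exact ⟨⊤, isCompl_bot_top⟩
  · have : X = ⊤ := Subrepresentation.toSubmodule_injective hX
    rw [this]
    exact ⟨⊥, isCompl_top_bot⟩

variable {Γ : Type} [Group Γ] {V : Type} [AddCommGroup V] [Module k V]

/-- the restriction of a representation of `U` to a smaller subgroup -/
def res {U W : Subgroup Γ} (h : W ≤ U) (ρ : Representation k U V) : Representation k W V :=
  ρ.comp (Subgroup.inclusion h)

theorem semi_res [FiniteDimensional k V] {U W : Subgroup Γ} [W.Normal] (h : W ≤ U)
    (ρ : Representation k U V) (hρ : ρ.IsSemisimpleRepresentation) :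
    (res h ρ).IsSemisimpleRepresentation := by
  refine Pool.Agent.Q227.CD.clifford ρ (Subgroup.inclusion h) (fun g w => ?_) hρ
  exact ⟨⟨g * w * g⁻¹, ‹W.Normal›.conj_mem _ w.2 _⟩, Subtype.ext rfl⟩

theorem semi_of_res [CharZero k] [FiniteDimensional k V] {U W : Subgroup Γ} [W.Normal]
    [W.FiniteIndex] (h : W ≤ U) (ρ : Representation k U V)
    (hρ : (res h ρ).IsSemisimpleRepresentation) : ρ.IsSemisimpleRepresentation := by
  let ψ : (W.subgroupOf U) →* W :=
    { toFun := fun x => ⟨(x : U), x.2⟩
      map_one' := rfl
      map_mul' := fun _ _ => rfl }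
  have h1 : IsSemisimpleRepresentation
      ((res h ρ).comp ψ : Representation k (W.subgroupOf U) V) := by
    refine Pool.Agent.Q227.CD.clifford (res h ρ) ψ (fun g w => ?_) hρ
    refine ⟨⟨⟨g * (w : U) * (g : Γ)⁻¹, ?_⟩, ?_⟩, Subtype.ext rfl⟩
    · exact U.mul_mem (U.mul_mem (h g.2) (w : U).2) (U.inv_mem (h g.2))
    · exact ‹W.Normal›.conj_mem _ w.2 _
  exact Pool.Agent.Q227.CD.semi_of_finite ρ (W.subgroupOf U) h1

end Pool.Agent.Q65.SS
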