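import Pool.Agent.Q65.SS.Defs
import Pool.Agent.Q65.SS.Rep

/-!
# Semisimplicity for sums of small forms
-/

open CategoryTheory MonoidalCategory TensorProduct Representation

universe v u w

namespace Pool.Agent.Q65.SS

open Pool.Agent.Q28.HJ

namespace GaloisData

variable {Γ K : Type} [Group Γ] [Field K] [CharZero K] {𝓜 : Type u} [Category.{v} 𝓜]
  [Preadditive 𝓜] [MonoidalCategory 𝓜] {T : GaloisData.{v, u, w} Γ K 𝓜}

/-- restriction to and from a subgroup of finite index -/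
theorem semi_iff (hT : T.Facts) (M : 𝓜) {W : Subgroup Γ} (hW : W.Normal) (hi : W.FiniteIndex)
    (h : W ≤ T.U M) :
    (res h (T.rep M)).IsSemisimpleRepresentation ↔ (T.rep M).IsSemisimpleRepresentation := by
  have := hT.finite M
  exact ⟨semi_of_res h _, semi_res h _⟩

theorem semi_tensor (hc : Chevalley K) (hT : T.Facts) {M N : 𝓜}
    (hM : (T.rep M).IsSemisimpleRepresentation) (hN : (T.rep N).IsSemisimpleRepresentation) :
    (T.rep (M ⊗ N)).IsSemisimpleRepresentation := by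
  obtain ⟨e, W, hW, h'', h₀, hg⟩ := hT.kuenneth M N
  have h : W ≤ T.U M := h₀.trans inf_le_left
  have h' : W ≤ T.U N := h₀.trans inf_le_right
  have := hT.finite M
  have := hT.finite N
  let W₀ := W.normalCore
  have l : W₀ ≤ W := W.normalCore_le
  have hi : W₀.FiniteIndex := inferInstance
  have hn : W₀.Normal := inferInstance
  rw [← semi_iff hT _ hn hi (l.trans h'')]
  rw [← semi_iff hT _ hn hi (l.trans h)] at hM
  rw [← semi_iff hT _ hn hi (l.trans h')] at hN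
  refine semi_twist _ _ e (fun _ => 1) (fun _ => one_ne_zero) (fun g x => ?_)
    (hc _ _ _ _ _ hM hN)
  rw [one_smul]
  exact hg ⟨g, l g.2⟩ x

theorem semi_split (hT : T.Facts) {M A A' : 𝓜} (i₁ : M ⟶ A) (r₁ : A ⟶ M) (i₂ : M ⟶ A')
    (r₂ : A' ⟶ M) (e : i₁ ≫ r₁ + i₂ ≫ r₂ = 𝟙 M) (hA : (T.rep A).IsSemisimpleRepresentation)
    (hA' : (T.rep A').IsSemisimpleRepresentation) : (T.rep M).IsSemisimpleRepresentation := by
  obtain ⟨W, hW, h, h', hg⟩ := hT.functorial.equivariant r₁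
  obtain ⟨Z, hZ, k, k', hk⟩ := hT.functorial.equivariant r₂
  let W₀ := (W ⊓ Z).normalCore
  have l : W₀ ≤ W := (W ⊓ Z).normalCore_le.trans inf_le_left
  have m : W₀ ≤ Z := (W ⊓ Z).normalCore_le.trans inf_le_right
  have hi : W₀.FiniteIndex := inferInstance
  have hn : W₀.Normal := inferInstance
  rw [← semi_iff hT _ hn hi (l.trans h')]
  rw [← semi_iff hT _ hn hi (l.trans h)] at hA
  rw [← semi_iff hT _ hn hi (m.trans k)] at hA'
  refine semi_of_split _ _ _ hA hA' (T.map r₁) (T.map r₂) (fun g a => hg ⟨g, l g.2⟩ a)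
    (fun g a => hk ⟨g, m g.2⟩ a) (fun v => ⟨T.map i₁ v, T.map i₂ v, ?_⟩)
  rw [← hT.functorial.map_comp, ← hT.functorial.map_comp, ← hT.additive, e, hT.functorial.map_id]

theorem semi_untwist (hT : T.Facts) {M : 𝓜} (hM : (T.rep (M ⊗ T.L)).IsSemisimpleRepresentation) :
    (T.rep M).IsSemisimpleRepresentation := by
  obtain ⟨e, W, hW, h'', h₀, hg₀⟩ := hT.kuenneth M T.L
  have h : W ≤ T.U M := h₀.trans inf_le_left
  have h' : W ≤ T.U T.L := h₀.trans inf_le_right
  have hg : ∀ (g : W) (x : T.V (M ⊗ T.L)), e (T.rep (M ⊗ T.L) ⟨g, h'' g.2⟩ x) =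
      TensorProduct.map (T.rep M ⟨g, h g.2⟩) (T.rep T.L ⟨g, h' g.2⟩) (e x) := fun g x => hg₀ g x
  let W₀ := W.normalCore
  have l : W₀ ≤ W := W.normalCore_le
  have hi : W₀.FiniteIndex := inferInstance
  have hn : W₀.Normal := inferInstance
  rw [← semi_iff hT _ hn hi (l.trans h)]
  rw [← semi_iff hT _ hn hi (l.trans h'')] at hM
  have := hT.finite T.L
  have b : T.V T.L ≃ₗ[K] K := LinearEquiv.ofFinrankEq _ _ (by
    rw [hT.lefschetz, Module.finrank_self])
  have hb : ∀ y : T.V T.L, y = b y • b.symm 1 := by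
    intro y
    apply b.injective
    rw [map_smul, b.apply_symm_apply, smul_eq_mul, mul_one]
  let τ : T.V M ≃ₗ[K] T.V M ⊗[K] T.V T.L :=
    (TensorProduct.rid K (T.V M)).symm ≪≫ₗ TensorProduct.congr (LinearEquiv.refl K _) b.symm
  have hτ : ∀ x, τ x = x ⊗ₜ[K] b.symm 1 := by
    intro x
    simp [τ]
  let c : W₀ → K := fun g => b (T.rep T.L ⟨g, h' (l g.2)⟩ (b.symm 1))
  have hc : ∀ g, c g ≠ 0 := by
    intro g hg0
    have h1 : T.rep T.L ⟨g, h' (l g.2)⟩ (b.symm 1) = 0 := by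
      rw [hb (T.rep T.L ⟨g, h' (l g.2)⟩ (b.symm 1))]
      change c g • _ = _
      rw [hg0, zero_smul]
    have h2 : T.rep T.L (⟨g, h' (l g.2)⟩)⁻¹ (T.rep T.L ⟨g, h' (l g.2)⟩ (b.symm 1)) = b.symm 1 := by
      rw [← Module.End.mul_apply, ← map_mul, inv_mul_cancel, map_one, Module.End.one_apply]
    rw [h1, map_zero] at h2
    have h3 := congrArg b h2
    rw [map_zero, b.apply_symm_apply] at h3
    exact zero_ne_one h3
  refine semi_twist _ _ (τ ≪≫ₗ e.symm) (fun g => (c g)⁻¹) (fun g => inv_ne_zero (hc g))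
    (fun g x => ?_) hM
  change e.symm (τ (T.rep M ⟨g, h (l g.2)⟩ x)) =
    (c g)⁻¹ • T.rep (M ⊗ T.L) ⟨g, h'' (l g.2)⟩ (e.symm (τ x))
  rw [LinearEquiv.symm_apply_eq, map_smul, hg ⟨g, l g.2⟩, e.apply_symm_apply, hτ, hτ,
    TensorProduct.map_tmul]
  have h4 : T.rep T.L ⟨g, h' (l g.2)⟩ (b.symm 1) = c g • b.symm 1 := hb _
  change _ = (c g)⁻¹ • (T.rep M ⟨g, h (l g.2)⟩ x ⊗ₜ[K] T.rep T.L ⟨g, h' (l g.2)⟩ (b.symm 1))
  rw [h4, TensorProduct.tmul_smul, smul_smul, inv_mul_cancel₀ (hc g), one_smul]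

/-- the motives generated by those with semisimple representations -/
theorem semi_gen (hc : Chevalley K) (hT : T.Facts) {Q : 𝓜 → Prop}
    (hQ : ∀ M, Q M → (T.rep M).IsSemisimpleRepresentation) {M : 𝓜} (h : GenBy T.L Q M) :
    (T.rep M).IsSemisimpleRepresentation := by
  induction h with
  | of h => exact hQ _ h
  | unit => exact semi_one _ hT.unit
  | lef => exact semi_one _ hT.lefschetz
  | tensor _ _ a b => exact semi_tensor hc hT a b
  | split i₁ r₁ i₂ r₂ e _ _ a b => exact semi_split hT i₁ r₁ i₂ r₂ e a b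
  | untwist _ a => exact semi_untwist hT a

theorem final (hc : Chevalley K) (hT : T.Facts) (M : 𝓜)
    (hM : GenBy T.L (fun N => T.AV N ∨ T.HK N ∨ ∃ W, T.IsSmallSum W ∧ N = T.prim W) M)
    (ρ : Representation K Γ (T.V M)) (hρ : T.IsModel M ρ) : ρ.IsSemisimpleRepresentation := by
  have h1 : GenBy T.L T.AV M := by
    refine hM.bind ?_
    rintro N (hN | hN | ⟨W, hW, rfl⟩)
    · exact .of hN
    · exact hT.hyperkaehler N hN
    · exact (JoinData.small_sum hT.core hT.blocks hW).2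
  have h2 := semi_gen hc hT hT.faltings h1
  obtain ⟨W, hi, h, hg⟩ := hρ
  let W₀ := W.normalCore
  have l : W₀ ≤ W := W.normalCore_le
  have hi : W₀.FiniteIndex := inferInstance
  have hn : W₀.Normal := inferInstance
  have := hT.finite M
  rw [← semi_iff hT _ hn hi (l.trans h)] at h2
  have h3 : (ρ.comp W₀.subtype : Representation K W₀ (T.V M)) = res (l.trans h) (T.rep M) := by
    ext g x
    exact LinearMap.congr_fun (hg ⟨g, l g.2⟩) x
  refine Pool.Agent.Q227.CD.semi_of_finite ρ W₀ ?_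
  rw [h3]
  exact h2

end GaloisData

end Pool.Agent.Q65.SS
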