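import Pool.Agent.Q65.SS.ODens
import Pool.Agent.Q28.HJ.Small

/-!
# Places of ordinary reduction and motives: definitions
-/

set_option autoImplicit false

open CategoryTheory MonoidalCategory NumberField IsDedekindDomain

universe v u w

namespace Pool.Agent.Q65.SS

open Pool.Agent.Q28.HJ

section

variable {𝓜 : Type u} [Category.{v} 𝓜]

/-- The hypersurface `W` is given by a sum, in disjoint sets of variables, of forms `f_j` or
`f_j - u ^ d` (`u` a further variable), where the `f_j` are binary forms of degree `d`, `2 ≤ d ≤ 6`, or
`d = 3` and the `f_j` are cubic forms in at most four variables. The number of summands, and so the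
dimension of `W`, is arbitrary. -/
def BallSum (T : JoinData.{v, u, w} 𝓜) (W : T.Hyp) : Prop :=
  (∃ d, 2 ≤ d ∧ d ≤ 6 ∧ T.SumOf (T.blocks (T.forms d 0)) W) ∨ T.SumOf (T.blocks (T.forms 3 2)) W

variable [Preadditive 𝓜] [MonoidalCategory 𝓜]

/-- Facts on the motives of the blocks.
* `points`: the motive of a finite set is a sum of copies of the unit motive.
* `cubic`: plane cubic curves are elliptic curves, cubic surfaces are rational.
* `curve`: let `f` be a binary form of degree `d ≤ 6`. The Jacobian of `C : f(x, y) = u ^ d` is
  isogenous to a product of abelian varieties which are elliptic curves or abelian surfaces, have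
  complex multiplication, or have simple signature: the part of the Jacobian which belongs to the
  characters of order `m` of `μ_d` has dimension `(d - 2) φ(m) / 2` and multiplication by the `m`-th
  roots of unity, the signature is given by the pairs `(i - 1, d - 1 - i)`. For `d = 5` these are
  `(0, 3)`, `(1, 2)`, `(2, 1)`, `(3, 0)`; for `d = 6` we obtain the Jacobian of `w ^ 2 = f`, of dimension
  two, for `m = 3` the signature `(1, 3)`, `(3, 1)`, and for `m = 6` complex multiplication.
* `threefold`: the motive of a cubic threefold `f(x, y, z, t) = u ^ 3` is given by its intermediate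
  Jacobian, of dimension five, with multiplication by the third roots of unity of signature `(4, 1)`. -/
structure BallFacts (T : JoinData.{v, u, w} 𝓜) (B : 𝓜 → Prop) : Prop where
  points : ∀ X : T.Hyp, T.Smooth X → T.dim X = 0 → GenBy T.L B (T.prim X)
  cubic : ∀ X : T.Hyp, T.Smooth X → T.deg X = 3 → T.dim X ≤ 2 → GenBy T.L B (T.prim X)
  curve : ∀ X X' : T.Hyp, T.Smooth X → T.dim X = 0 → T.deg X ≤ 6 → T.Cyc X X' →
    GenBy T.L B (T.prim X')
  threefold : ∀ X X' : T.Hyp, T.Smooth X → T.deg X = 3 → T.dim X = 2 → T.Cyc X X' →
    GenBy T.L B (T.prim X')

end

/-- Let `K` be a number field. The data `JoinData` are given for the hypersurfaces over the algebraic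
closure of `K`, `𝓜` is the category of motives (for homological equivalence) over the algebraic
closure. -/
structure OrdData (K : Type) [Field K] [NumberField K] (𝓜 : Type u) [Category.{v} 𝓜]
    extends JoinData.{v, u, w} 𝓜 where
  /-- the motives of elliptic curves, abelian surfaces, K3 surfaces, and of abelian varieties which
  have complex multiplication or simple signature (multiplication by a CM field, Galois over `ℚ`, of
  signature `(1, n - 1)` at one embedding, `(n - 1, 1)` at the conjugate one and `(n, 0)` or `(0, n)` at
  the others) -/
  Base : 𝓜 → Prop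
  /-- the maximal ideals `Q` of the ring of all algebraic integers (places of the algebraic closure)
  where the motive `M` is ordinary: `M` is a direct summand of a twist of the motive of a smooth
  projective variety with good reduction at `Q`, and the Newton polygon of its crystalline
  realization at `Q` is equal to the Hodge polygon of `M` -/
  Ord : 𝓜 → Set (Ideal (𝓞 (AlgebraicClosure K)))
  /-- the smooth projective varieties over `K` -/
  Var : Type w
  /-- the motive of `X` over the algebraic closure -/
  mot : Var → 𝓜
  /-- the finite places of `K` where `X` has good ordinary reduction in the sense of Bloch and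
  Kato -/
  good : Var → Set (HeightOneSpectrum (𝓞 K))

namespace OrdData

variable {K : Type} [Field K] [NumberField K] {𝓜 : Type u} [Category.{v} 𝓜] (T : OrdData.{v, u, w} K 𝓜)

/-- The finite places `v` of `K` with `v ∉ good X`, such that the motive of `X` is ordinary at some
place above `v`. -/
def exceptional (X : T.Var) : Set (HeightOneSpectrum (𝓞 K)) :=
  {v | v ∉ T.good X ∧ ∃ Q : Ideal (𝓞 (AlgebraicClosure K)), Q.IsMaximal ∧
      Q.comap (algebraMap (𝓞 K) (𝓞 (AlgebraicClosure K))) = v.asIdeal ∧ Q ∈ T.Ord (T.mot X)}

variable [Preadditive 𝓜] [MonoidalCategory 𝓜]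

/-- Known facts.
* `core`: the facts on hypersurfaces given by sums of equations (Shioda, Katsura; elementary).
* `blocks`: the motives of the blocks.
* `unit`, `lefschetz`, `tensor`, `split`, `untwist`: ordinary motives are stable under tensor products,
  direct sums, direct summands and Tate twists (the Newton polygon lies above the Hodge polygon).
* `base`: for the motives `M` in `Base` there is a finite extension `L` of `K` such that `M` is ordinary
  at all places above a set of density one of places of `L`: Serre for elliptic curves, Ogus for
  abelian surfaces, Bogomolov and Zarhin for K3 surfaces, Shimura and Taniyama for complex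
  multiplication, Cantoral-Farfan, Li, Mantovan, Pries and Tang for simple signature.
* `bloch_kato`: for almost all `v` the variety `X` has good reduction at `v` and its crystalline
  cohomology is torsion-free, and then the reduction is ordinary if and only if the Newton polygons
  are equal to the Hodge polygons (Bloch and Kato). -/
structure Facts : Prop where
  core : T.CoreFacts
  blocks : BallFacts T.toJoinData T.Base
  unit : ∀ Q : Ideal (𝓞 (AlgebraicClosure K)), Q.IsMaximal → Q ∈ T.Ord (𝟙_ 𝓜)
  lefschetz : ∀ Q : Ideal (𝓞 (AlgebraicClosure K)), Q.IsMaximal → Q ∈ T.Ord T.L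
  tensor : ∀ M N, T.Ord M ∩ T.Ord N ⊆ T.Ord (M ⊗ N)
  split : ∀ {M A A' : 𝓜} (i₁ : M ⟶ A) (r₁ : A ⟶ M) (i₂ : M ⟶ A') (r₂ : A' ⟶ M),
    i₁ ≫ r₁ + i₂ ≫ r₂ = 𝟙 M → T.Ord A ∩ T.Ord A' ⊆ T.Ord M
  untwist : ∀ M, T.Ord (M ⊗ T.L) ⊆ T.Ord M
  base : ∀ M, T.Base M → PotOne (T.Ord M)
  bloch_kato : ∀ X, (T.exceptional X).Finite

end OrdData

end Pool.Agent.Q65.SS
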