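import Pool.Agent.TH30.Ord.PRank

/-!
# Sets of places which contain the places above a set of density one
-/

set_option autoImplicit false

open NumberField IsDedekindDomain Filter Topology

namespace Pool.Agent.Q65.SS

open Pool.Agent.W528.Ord Pool.Agent.W401.Cheb Pool.Agent.TH30.Ord

section

variable {K : Type} [Field K] [NumberField K]

/-- The maximal ideal `Q` of the ring of all algebraic integers lies above the place `w` of `L`. -/
def Above (L : IntermediateField K (AlgebraicClosure K)) (Q : Ideal (𝓞 (AlgebraicClosure K)))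
    (w : HeightOneSpectrum (𝓞 L)) : Prop :=
  Q.IsMaximal ∧ Q.comap (algebraMap (𝓞 L) (𝓞 (AlgebraicClosure K))) = w.asIdeal

/-- For a number field `L` containing `K` the places `w` of `L` such that all maximal ideals `Q`
above `w` are in `O` form a set of density one. -/
def PotOne (O : Set (Ideal (𝓞 (AlgebraicClosure K)))) : Prop :=
  ∃ (L : IntermediateField K (AlgebraicClosure K)) (_ : NumberField L),
    Tendsto (ratio fun w : HeightOneSpectrum (𝓞 L) => ∀ Q, Above L Q w → Q ∈ O) atTop (𝓝 1)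

theorem dens_not (P : HeightOneSpectrum (𝓞 K) → Prop) (h : Tendsto (ratio P) atTop (𝓝 1)) :
    Tendsto (dens fun v => ¬ P v) atTop (𝓝 0) := by
  have h1 := (dens_true' (K := K))
  have h2 : Tendsto (fun N => (1 - ratio P N) *
      ((Nat.card {v : HeightOneSpectrum (𝓞 K) // Ideal.absNorm v.asIdeal ≤ N} : ℝ) /
        (Nat.primeCounting N : ℝ))) atTop (𝓝 0) := by
    have := (h.const_sub 1).mul h1
    simpa using this
  refine squeeze_zero' (Eventually.of_forall fun N => dens_nonneg _ _) ?_ h2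
  have h3 : ∀ᶠ N : ℕ in atTop, (1 / 2 : ℝ) <
      ((Nat.card {v : HeightOneSpectrum (𝓞 K) // Ideal.absNorm v.asIdeal ≤ N} : ℝ) /
        (Nat.primeCounting N : ℝ)) := h1.eventually (lt_mem_nhds (by norm_num))
  filter_upwards [h3] with N hN
  have hf : {v : HeightOneSpectrum (𝓞 K) | Ideal.absNorm v.asIdeal ≤ N}.Finite :=
    Pool.Agent.W352.ChAbs.finite_le (K := K) N
  have hc : (Nat.card {v : HeightOneSpectrum (𝓞 K) // Ideal.absNorm v.asIdeal ≤ N ∧ P v}) +
      Nat.card {v : HeightOneSpectrum (𝓞 K) // Ideal.absNorm v.asIdeal ≤ N ∧ ¬ P v} =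
      Nat.card {v : HeightOneSpectrum (𝓞 K) // Ideal.absNorm v.asIdeal ≤ N} := by
    have a := Set.ncard_inter_add_ncard_sdiff_eq_ncard
      {v : HeightOneSpectrum (𝓞 K) | Ideal.absNorm v.asIdeal ≤ N} {v | P v} hf
    exact a
  set a : ℝ := (Nat.card {v : HeightOneSpectrum (𝓞 K) // Ideal.absNorm v.asIdeal ≤ N} : ℝ)
  have hpos : 0 < a := by
    by_contra hneg
    have h0 : a = 0 := le_antisymm (not_lt.1 hneg) (Nat.cast_nonneg _)
    rw [h0, zero_div] at hN
    norm_num at hN
  have e1 : dens (fun v => ¬ P v) N = (1 - ratio P N) * (a / (Nat.primeCounting N : ℝ)) := by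
    unfold dens ratio
    have e2 : (Nat.card {v : HeightOneSpectrum (𝓞 K) // Ideal.absNorm v.asIdeal ≤ N ∧ ¬ P v} : ℝ) =
        a - (Nat.card {v : HeightOneSpectrum (𝓞 K) // Ideal.absNorm v.asIdeal ≤ N ∧ P v} : ℝ) := by
      have : (Nat.card {v : HeightOneSpectrum (𝓞 K) // Ideal.absNorm v.asIdeal ≤ N ∧ P v} : ℝ) +
        (Nat.card {v : HeightOneSpectrum (𝓞 K) // Ideal.absNorm v.asIdeal ≤ N ∧ ¬ P v} : ℝ) = a := by
        have hc' := congrArg (Nat.cast : ℕ → ℝ) hc
        push_cast at hc'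
        exact hc'
      linarith
    rw [e2]
    change _ = (1 - _ / a) * _
    field_simp
  exact e1.le

end

section

variable {K : Type} [Field K] [NumberField K]

/-- from `L` to a larger field -/
theorem up {L L' : IntermediateField K (AlgebraicClosure K)} [NumberField L] [NumberField L']
    (h : L ≤ L') (O : Set (Ideal (𝓞 (AlgebraicClosure K))))
    (hL : Tendsto (ratio fun w : HeightOneSpectrum (𝓞 L) => ∀ Q, Above L Q w → Q ∈ O) atTop (𝓝 1)) :
    Tendsto (dens fun w : HeightOneSpectrum (𝓞 L') => ¬ ∀ Q, Above L' Q w → Q ∈ O) atTop (𝓝 0) := by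
  letI : Algebra L L' := (IntermediateField.inclusion h).toRingHom.toAlgebra
  have htow : (algebraMap (𝓞 L') (𝓞 (AlgebraicClosure K))).comp (algebraMap (𝓞 L) (𝓞 L')) =
      algebraMap (𝓞 L) (𝓞 (AlgebraicClosure K)) := by
    ext x
    rfl
  have h0 := dens_not _ hL
  have h1 : Tendsto (fun N => (Module.finrank ℚ L' : ℝ) * dens (fun w : HeightOneSpectrum (𝓞 L) =>
      ¬ ∀ Q, Above L Q w → Q ∈ O) N) atTop (𝓝 0) := by
    simpa using h0.const_mul (Module.finrank ℚ L' : ℝ)
  have h2 := (dens_not_prime (K := L')).add h1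
  rw [add_zero] at h2
  refine squeeze_zero (fun N => dens_nonneg _ _) (fun N => ?_) h2
  refine le_trans (dens_mono (Q := fun w => ¬ (Ideal.absNorm w.asIdeal).Prime ∨
    ((Ideal.absNorm w.asIdeal).Prime ∧ ¬ ∀ Q, Above L' Q w → Q ∈ O)) ?_ N) ?_
  · intro w hw
    by_cases hp : (Ideal.absNorm w.asIdeal).Prime
    · exact Or.inr ⟨hp, hw⟩
    · exact Or.inl hp
  · refine (dens_or _ _ N).trans (add_le_add le_rfl ?_)
    refine dens_under (K₀ := L) (K := L') _ _ (fun w hw => hw.1) (fun w w₀ hw hww hall => ?_) N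
    apply hw.2
    intro Q hQ
    refine hall Q ⟨hQ.1, ?_⟩
    rw [← htow, ← Ideal.comap_comap, hQ.2, hww]

theorem potOne_inter {O O' : Set (Ideal (𝓞 (AlgebraicClosure K)))} (h : PotOne O)
    (h' : PotOne O') : PotOne (O ∩ O') := by
  obtain ⟨L, hL, h1⟩ := h
  obtain ⟨L', hL', h2⟩ := h'
  haveI : FiniteDimensional K L := Module.Finite.of_restrictScalars_finite ℚ K L
  haveI : FiniteDimensional K L' := Module.Finite.of_restrictScalars_finite ℚ K L'
  haveI : FiniteDimensional K (L ⊔ L' : IntermediateField K (AlgebraicClosure K)) :=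
    IntermediateField.finiteDimensional_sup L L'
  haveI : NumberField (L ⊔ L' : IntermediateField K (AlgebraicClosure K)) :=
    NumberField.of_module_finite K _
  refine ⟨L ⊔ L', inferInstance, ?_⟩
  apply ratio_one
  have a := (up (le_sup_left : L ≤ L ⊔ L') O h1).add (up (le_sup_right : L' ≤ L ⊔ L') O' h2)
  rw [add_zero] at a
  refine squeeze_zero (fun N => dens_nonneg _ _) (fun N => ?_) a
  refine (dens_mono ?_ N).trans (dens_or _ _ N)
  intro w hw
  by_contra hcon
  push Not at hcon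
  exact hw fun Q hQ => ⟨hcon.1 Q hQ, hcon.2 Q hQ⟩

theorem potOne_mono {O O' : Set (Ideal (𝓞 (AlgebraicClosure K)))} (h : PotOne O)
    (hO : ∀ Q, Q.IsMaximal → Q ∈ O → Q ∈ O') : PotOne O' := by
  obtain ⟨L, hL, h1⟩ := h
  refine ⟨L, hL, ?_⟩
  apply ratio_one
  refine squeeze_zero (fun N => dens_nonneg _ _) (fun N => ?_) (dens_not _ h1)
  refine dens_mono ?_ N
  intro w hw hall
  exact hw fun Q hQ => hO Q hQ.1 (hall Q hQ)

theorem potOne_all {O : Set (Ideal (𝓞 (AlgebraicClosure K)))}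
    (hO : ∀ Q : Ideal (𝓞 (AlgebraicClosure K)), Q.IsMaximal → Q ∈ O) : PotOne O := by
  haveI : NumberField (⊥ : IntermediateField K (AlgebraicClosure K)) :=
    NumberField.of_module_finite K _
  refine ⟨⊥, inferInstance, ?_⟩
  apply ratio_one
  refine squeeze_zero (fun N => dens_nonneg _ _) (fun N => ?_)
    (dens_not (K := (⊥ : IntermediateField K (AlgebraicClosure K))) (fun _ => True)
      (ratio_tendsto _ 1 dens_true))
  refine dens_mono ?_ N
  intro w hw _
  exact hw fun Q hQ => hO Q hQ.1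

theorem exists_above (L : IntermediateField K (AlgebraicClosure K)) [NumberField L]
    (w : HeightOneSpectrum (𝓞 L)) : ∃ Q : Ideal (𝓞 (AlgebraicClosure K)), Above L Q w := by
  haveI := w.isMaximal
  have hint : Algebra.IsIntegral (𝓞 L) (𝓞 (AlgebraicClosure K)) := by
    refine ⟨fun x => ?_⟩
    have h1 : IsIntegral ℤ x := x.isIntegral
    exact h1.tower_top
  obtain ⟨Q, hQ, hw⟩ := Ideal.exists_ideal_over_maximal_of_isIntegral (S := 𝓞 (AlgebraicClosure K))
    w.asIdeal (by
      intro x hx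
      have hx0 : algebraMap (𝓞 L) (𝓞 (AlgebraicClosure K)) x = 0 := hx
      have hinj : Function.Injective (algebraMap (𝓞 L) (𝓞 (AlgebraicClosure K))) :=
        FaithfulSMul.algebraMap_injective _ _
      have : x = 0 := hinj (by rw [hx0, map_zero])
      rw [this]
      exact zero_mem _)
  exact ⟨Q, hQ, hw⟩

/-- The places of `K` below: density one upstairs, positive lower density downstairs. -/
theorem down {O : Set (Ideal (𝓞 (AlgebraicClosure K)))} (h : PotOne O)
    (G : Set (HeightOneSpectrum (𝓞 K)))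
    (hG : {v : HeightOneSpectrum (𝓞 K) | v ∉ G ∧ ∃ Q : Ideal (𝓞 (AlgebraicClosure K)), Q.IsMaximal ∧
      Q.comap (algebraMap (𝓞 K) (𝓞 (AlgebraicClosure K))) = v.asIdeal ∧ Q ∈ O}.Finite) :
    (∃ (L : IntermediateField K (AlgebraicClosure K)) (_ : NumberField L),
      Tendsto (ratio fun w : HeightOneSpectrum (𝓞 L) => ∀ v : HeightOneSpectrum (𝓞 K),
        w.asIdeal.comap (algebraMap (𝓞 K) (𝓞 L)) = v.asIdeal → v ∈ G) atTop (𝓝 1)) ∧
      0 < lowerDensity (· ∈ G) := by
  obtain ⟨L, hL, h1⟩ := h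
  have htow : (algebraMap (𝓞 L) (𝓞 (AlgebraicClosure K))).comp (algebraMap (𝓞 K) (𝓞 L)) =
      algebraMap (𝓞 K) (𝓞 (AlgebraicClosure K)) := by
    ext x
    rfl
  set F : Set (HeightOneSpectrum (𝓞 K)) := {v : HeightOneSpectrum (𝓞 K) | v ∉ G ∧
    ∃ Q : Ideal (𝓞 (AlgebraicClosure K)), Q.IsMaximal ∧
      Q.comap (algebraMap (𝓞 K) (𝓞 (AlgebraicClosure K))) = v.asIdeal ∧ Q ∈ O} with hF
  have hbad := dens_not _ h1
  -- density of the places of `L` above a place outside `G`
  have h2 : Tendsto (dens fun w : HeightOneSpectrum (𝓞 L) => ¬ ∀ v : HeightOneSpectrum (𝓞 K),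
        w.asIdeal.comap (algebraMap (𝓞 K) (𝓞 L)) = v.asIdeal → v ∈ G) atTop (𝓝 0) := by
    have a1 : Tendsto (fun N => (Module.finrank ℚ L : ℝ) * dens (· ∈ F) N) atTop (𝓝 0) := by
      simpa using (dens_finite (· ∈ F) hG).const_mul (Module.finrank ℚ L : ℝ)
    have a2 := ((dens_not_prime (K := L)).add hbad).add a1
    rw [add_zero, add_zero] at a2
    refine squeeze_zero (fun N => dens_nonneg _ _) (fun N => ?_) a2
    refine le_trans (dens_mono (Q := fun w => (¬ (Ideal.absNorm w.asIdeal).Prime ∨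
      ¬ ∀ Q, Above L Q w → Q ∈ O) ∨ ((Ideal.absNorm w.asIdeal).Prime ∧
        ∀ v : HeightOneSpectrum (𝓞 K), w.asIdeal.comap (algebraMap (𝓞 K) (𝓞 L)) = v.asIdeal →
          v ∈ F)) ?_ N) ?_
    · intro w hw
      by_contra hcon
      push Not at hcon
      obtain ⟨⟨hp, hall⟩, hno⟩ := hcon
      obtain ⟨v, hv, hvF⟩ := hno hp
      obtain ⟨Q, hQ⟩ := exists_above L w
      apply hw
      intro v' hv'
      have hvv : v' = v := HeightOneSpectrum.ext (by rw [← hv, ← hv'])
      by_contra hvG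
      apply hvF
      refine ⟨by rwa [← hvv], Q, hQ.1, ?_, hall Q hQ⟩
      rw [← htow, ← Ideal.comap_comap, hQ.2, hv]
    · refine (dens_or _ _ N).trans (add_le_add (dens_or _ _ N) ?_)
      exact dens_under (K₀ := K) (K := L) _ _ (fun w hw => hw.1) (fun w w₀ hw hww => hw.2 w₀ hww) N
  refine ⟨⟨L, hL, ratio_one _ h2⟩, ?_⟩
  have hd : (0 : ℝ) < (Module.finrank ℚ L : ℝ) := by exact_mod_cast Module.finrank_pos
  apply lowerDensity_pos _ (1 / 2 / (Module.finrank ℚ L : ℝ)) (by positivity)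
  have h3 : Tendsto (dens fun w : HeightOneSpectrum (𝓞 L) => (Ideal.absNorm w.asIdeal).Prime ∧
      ∀ v : HeightOneSpectrum (𝓞 K),
        w.asIdeal.comap (algebraMap (𝓞 K) (𝓞 L)) = v.asIdeal → v ∈ G) atTop (𝓝 1) := by
    apply dens_one
    have a2 := (dens_not_prime (K := L)).add h2
    rw [add_zero] at a2
    refine squeeze_zero (fun N => dens_nonneg _ _) (fun N => ?_) a2
    refine (dens_mono ?_ N).trans (dens_or _ _ N)
    intro w hw
    by_contra hcon
    push Not at hcon
    exact hw ⟨hcon.1, hcon.2⟩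
  filter_upwards [h3.eventually (lt_mem_nhds (show (1 / 2 : ℝ) < 1 by norm_num))] with N hN
  have h4 := dens_under (K₀ := K) (K := L) (fun w : HeightOneSpectrum (𝓞 L) =>
    (Ideal.absNorm w.asIdeal).Prime ∧ ∀ v : HeightOneSpectrum (𝓞 K),
        w.asIdeal.comap (algebraMap (𝓞 K) (𝓞 L)) = v.asIdeal → v ∈ G) (· ∈ G)
    (fun w hw => hw.1) (fun w v hw hv => hw.2 v hv) N
  rw [div_le_iff₀ hd, mul_comm]
  exact hN.le.trans h4

end

end Pool.Agent.Q65.SS
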