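import Pool.Agent.Q65.SS.ODefs

/-!
# Places of ordinary reduction for sums of small forms
-/

set_option autoImplicit false

open CategoryTheory MonoidalCategory NumberField IsDedekindDomain Filter Topology

universe v u w

namespace Pool.Agent.Q65.SS

open Pool.Agent.Q28.HJ Pool.Agent.W528.Ord Pool.Agent.W401.Cheb

variable {𝓜 : Type u} [Category.{v} 𝓜] [Preadditive 𝓜] [MonoidalCategory 𝓜]

/-- The primitive motives of sums of blocks are generated by the base motives. -/
theorem ball_sum {T : JoinData.{v, u, w} 𝓜} (hT : T.CoreFacts) {B : 𝓜 → Prop}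
    (hB : BallFacts T B) {W : T.Hyp} (h : BallSum T W) : GenBy T.L B (T.prim W) := by
  rcases h with ⟨d, hd, hd6, h⟩ | h
  · refine (JoinData.genBy_sum hT hd (B := T.forms d 0)
      (fun X hX => ⟨hX.1, hX.2.1⟩) (fun X hX hdX => ?_) (P := B) ?_ h).2.1
    · obtain ⟨a, b⟩ := hT.diag_prop hX
      exact ⟨a, hdX, by omega⟩
    · rintro X (⟨h1, h2, h3⟩ | ⟨Y, ⟨h1, h2, h3⟩, hY⟩)
      · exact hB.points X h1 (by omega)
      · exact hB.curve Y X h1 (by omega) (by omega) hY
  · refine (JoinData.genBy_sum hT (d := 3) (by norm_num) (B := T.forms 3 2)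
      (fun X hX => ⟨hX.1, hX.2.1⟩) (fun X hX hdX => ?_) (P := B) ?_ h).2.1
    · obtain ⟨a, b⟩ := hT.diag_prop hX
      exact ⟨a, hdX, by omega⟩
    · rintro X (⟨h1, h2, h3⟩ | ⟨Y, ⟨h1, h2, h3⟩, hY⟩)
      · exact hB.cubic X h1 h2 h3
      · obtain ⟨a, b, c⟩ := hT.cyc_prop hY
        by_cases h4 : T.dim Y = 2
        · exact hB.threefold Y X h1 h2 h4 hY
        · exact hB.cubic X a (by omega) (by omega)

namespace OrdData

variable {K : Type} [Field K] [NumberField K] {T : OrdData.{v, u, w} K 𝓜}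

theorem pot (hT : T.Facts) {P : 𝓜 → Prop} (hP : ∀ M, P M → PotOne (T.Ord M)) {M : 𝓜}
    (h : GenBy T.L P M) : PotOne (T.Ord M) := by
  induction h with
  | of h => exact hP _ h
  | unit => exact potOne_all hT.unit
  | lef => exact potOne_all hT.lefschetz
  | tensor _ _ a b => exact potOne_mono (potOne_inter a b) fun Q _ hQ => hT.tensor _ _ hQ
  | split i₁ r₁ i₂ r₂ e _ _ a b =>
    exact potOne_mono (potOne_inter a b) fun Q _ hQ => hT.split i₁ r₁ i₂ r₂ e hQ
  | untwist _ a => exact potOne_mono a fun Q _ hQ => hT.untwist _ hQ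

theorem final (hT : T.Facts) (X : T.Var)
    (hX : GenBy T.L (fun N => T.Base N ∨ ∃ W, BallSum T.toJoinData W ∧ N = T.prim W) (T.mot X)) :
    (∃ (L : IntermediateField K (AlgebraicClosure K)) (_ : NumberField L),
      Tendsto (ratio fun w : HeightOneSpectrum (𝓞 L) => ∀ v : HeightOneSpectrum (𝓞 K),
        w.asIdeal.comap (algebraMap (𝓞 K) (𝓞 L)) = v.asIdeal → v ∈ T.good X) atTop (𝓝 1)) ∧
      0 < lowerDensity (· ∈ T.good X) := by
  refine down (pot hT (fun M hM => ?_) hX) (T.good X) (hT.bloch_kato X)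
  rcases hM with hM | ⟨W, hW, rfl⟩
  · exact hT.base M hM
  · exact pot hT hT.base (ball_sum hT.core hT.blocks hW)

end OrdData

end Pool.Agent.Q65.SS
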